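import Pool.Agent.Helper24.EG.Goals

/-!
Project EG, packet TRANS: transport of the weights along an equivalence.
-/

set_option autoImplicit false

namespace Pool.Agent.Helper86.EG

open Pool.Agent.Helper24.EG

section iso

variable {V W : Type} {G : SimpleGraph V} {H : SimpleGraph W}

theorem nb (φ : G ≃g H) (v : V) : (H.neighborSet (φ v)).ncard = (G.neighborSet v).ncard := by
  rw [← Nat.card_coe_set_eq, ← Nat.card_coe_set_eq]
  exact (Nat.card_congr (φ.mapNeighborSet v)).symm

theorem ed (φ : G ≃g H) : H.edgeSet.ncard = G.edgeSet.ncard := by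
  rw [← Nat.card_coe_set_eq, ← Nat.card_coe_set_eq]
  exact (Nat.card_congr φ.mapEdgeSet).symm

theorem ev_iff (φ : G ≃g H) : (∀ w, Even (H.neighborSet w).ncard) ↔
    ∀ v, Even (G.neighborSet v).ncard := by
  constructor
  · intro h v
    rw [← nb φ v]
    exact h _
  · intro h w
    have h1 := nb φ (φ.symm w)
    rw [RelIso.apply_symm_apply] at h1
    rw [h1]
    exact h _

theorem wG_iso (φ : G ≃g H) (z : ℂ) : wG z G = wG z H := by
  unfold wG
  rw [ed φ]
  by_cases h : ∀ v, Even (G.neighborSet v).ncard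
  · rw [if_pos h, if_pos ((ev_iff φ).2 h)]
  · rw [if_neg h, if_neg (fun h' => h ((ev_iff φ).1 h'))]

theorem cG_iso (φ : G ≃g H) (z : ℂ) : cG z G = cG z H := by
  unfold cG
  rw [ed φ]
  by_cases h : (∀ v, Even (G.neighborSet v).ncard) ∧ G.Connected
  · rw [if_pos h, if_pos ⟨(ev_iff φ).2 h.1, φ.connected_iff.1 h.2⟩]
  · rw [if_neg h, if_neg (fun h' => h ⟨(ev_iff φ).1 h'.1, φ.connected_iff.2 h'.2⟩)]

end iso

/-- Packet TRANS. -/
theorem gTRANS : G_TRANS := by
  intro V _ _ z
  have e : V ≃ Fin (Fintype.card V) := Fintype.equivFin V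
  have φ : ∀ G : SimpleGraph V, G ≃g e.simpleGraph G := fun G =>
    (SimpleGraph.Iso.comap e.symm G).symm
  constructor
  · unfold Wn
    exact Fintype.sum_equiv e.simpleGraph _ _ (fun G => wG_iso (φ G) z)
  · unfold Cn
    exact Fintype.sum_equiv e.simpleGraph _ _ (fun G => cG_iso (φ G) z)

end Pool.Agent.Helper86.EG
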